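import Pool.Agent.U124.LP.Real
import Pool.Agent.N588.TD.Bit

set_option autoImplicit false

/-!
# Random shadow paths on linear programs of bounded imbalance: the bit model
-/

namespace Pool.Agent.U124.LP

open Pool.Agent.Y644.QS Pool.Agent.Y644.QW Pool.Agent.H687R2.LLL Pool.Agent.NPC.H532.RP
open Pool.Agent.NPC hiding inp
open Pool.Agent.N477.RS

variable {m n : ℕ} {A : Fin m → Fin n → ℚ} {b : Fin m → ℚ} {c v : Fin n → ℚ}

/-- with a large budget every run is complete -/
theorem run1_large (hv : re v ∈ Set.extremePoints ℝ (polyhedron A b)) {L Q : ℕ} (hL : n ≤ L)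
    (ω : Fin L → Fin Q) {T : ℕ} (hT : 2 ^ (m + n) ≤ T) :
    run1 (inp A b c v) T (List.ofFn fun i => Q + (ω i : ℕ)) ≠ [] := by
  intro h
  obtain ⟨B, -, hB⟩ := run1_complete (c := c) hv
  have h1 := hB L Q hL ω T h
  have h2 : (Vis (N477.MD.Poly (arow (Ar A)) (arhs (br b))) (fun j => (c j : ℝ))
      (N477.MD.zz (arow (Ar A)) B 0 (gpt Q fun k => ω (Fin.castLE hL k)))).ncard ≤
      ((N477.MD.Poly (arow (Ar A)) (arhs (br b))).extremePoints ℝ).ncard :=
    Set.ncard_le_ncard (fun x hx => hx.1) N477.MD.ext_finite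
  have h3 := ncard_ext_le (a := arow (Ar A)) (b := arhs (br b))
  rw [Fintype.card_sum, Fintype.card_fin, Fintype.card_fin] at h3
  omega

/-- sound -/
theorem runs_sound (hv : re v ∈ Set.extremePoints ℝ (polyhedron A b)) (T : ℕ)
    (W : List (List ℕ)) : runs (inp A b c v) T W = none ∨
    ∃ (N : ℕ) (x : ℕ → Fin n → ℚ) (d : Option (Fin n → ℚ)),
      runs (inp A b c v) T W =
        some ((List.range (N + 1)).map (fun k => List.ofFn (x k)), d.map List.ofFn) ∧
      IsSimplexPath (polyhedron A b) c v N x d ∧ N ≤ T := by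
  rcases h : runs (inp A b c v) T W with _ | o
  · exact Or.inl rfl
  · right
    obtain ⟨w, -, ho⟩ := runs_some h
    obtain ⟨N, x, d, h1, h2, h3⟩ := run1_sound hv ho
    exact ⟨N, x, d, by rw [h1], h2, h3⟩

/-- with a large budget there is an answer -/
theorem runs_large (hv : re v ∈ Set.extremePoints ℝ (polyhedron A b)) {r L Q : ℕ} (hr : 0 < r)
    (hL : n ≤ L) (ω : Fin r → Fin L → Fin Q) {T : ℕ} (hT : 2 ^ (m + n) ≤ T) :
    runs (inp A b c v) T (wtab ω) ≠ none := by
  intro h
  exact run1_large (c := c) hv hL (ω ⟨0, hr⟩) hT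
    (runs_none h _ (List.mem_ofFn.2 ⟨⟨0, hr⟩, rfl⟩))

/-- a single row -/
theorem runs_single (x : Inp) (T : ℕ) (w : List ℕ) :
    runs x T [w] = none ↔ run1 x T w = [] := by
  unfold runs
  rw [List.flatMap_cons, List.flatMap_nil, List.append_nil, List.head?_eq_none_iff]

open Classical in
/-- tables with one row -/
theorem row_count (x : Inp) (T L : ℕ) :
    (Finset.univ.filter (fun ω : Fin 1 → Fin L → Fin (2 ^ kb L) =>
      runs x T (wtab ω) = none)).card =
    (Finset.univ.filter (fun η : Fin L → Fin (2 ^ kb L) =>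
      run1 x T (List.ofFn fun i => 2 ^ kb L + (η i : ℕ)) = [])).card := by
  have hw : ∀ ω : Fin 1 → Fin L → Fin (2 ^ kb L),
      wtab ω = [List.ofFn fun i => 2 ^ kb L + (ω 0 i : ℕ)] := by
    intro ω
    unfold wtab
    rw [List.ofFn_succ, List.ofFn_zero]
  refine Finset.card_bij (fun ω _ => ω 0) ?_ ?_ ?_
  · intro ω hω
    rw [Finset.mem_filter] at hω ⊢
    refine ⟨Finset.mem_univ _, ?_⟩
    have h1 := hω.2
    rw [hw] at h1
    exact (runs_single _ _ _).1 h1
  · intro ω _ ω' _ h
    funext i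
    rw [Subsingleton.elim i 0]
    exact h
  · intro η hη
    refine ⟨fun _ => η, ?_, rfl⟩
    rw [Finset.mem_filter] at hη ⊢
    refine ⟨Finset.mem_univ _, ?_⟩
    rw [hw]
    exact (runs_single _ _ _).2 hη.2

theorem card_table (r L : ℕ) : Fintype.card (Fin r → Fin L → Fin (2 ^ kb L)) =
    ((2 ^ kb L) ^ L) ^ r := by
  rw [Fintype.card_fun, Fintype.card_fun, Fintype.card_fin, Fintype.card_fin, Fintype.card_fin]

/-- a good table -/
def GoodTable (L : ℕ) (W : List (List ℕ)) : Prop :=
  ∀ (x : Inp) (T : ℕ), Valid x T → sz x ≤ L → runs x T W ≠ none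

open Classical in
theorem exists_good (L : ℕ) : ∃ ω : Fin (2 * L + 1) → Fin L → Fin (2 ^ kb L),
    GoodTable L (wtab ω) := by
  rcases Nat.eq_zero_or_pos L with hL | hL
  · subst hL
    refine ⟨fun _ => Fin.elim0, fun x T _ h => ?_⟩
    have := sz_pos x
    omega
  · by_contra hcon
    push Not at hcon
    have h := card_all L
    have he : (Finset.univ.filter (fun ω : Fin (2 * L + 1) → Fin L → Fin (2 ^ kb L) =>
      ∃ (x : Inp) (T : ℕ), Valid x T ∧ sz x ≤ L ∧ runs x T (wtab ω) = none)) = Finset.univ := by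
      refine Finset.eq_univ_iff_forall.2 fun ω => Finset.mem_filter.2 ⟨Finset.mem_univ _, ?_⟩
      have h1 := hcon ω
      unfold GoodTable at h1
      push Not at h1
      exact h1
    rw [he, Finset.card_univ, Fintype.card_fun, Fintype.card_fun, Fintype.card_fin,
      Fintype.card_fin, Fintype.card_fin] at h
    have hpos : 0 < ((2 ^ kb L) ^ L) ^ (2 * L + 1) := by positivity
    have h2 : 2 ^ 1 ≤ 2 ^ L := Nat.pow_le_pow_right (by norm_num) hL
    have h3 := Nat.mul_le_mul_right (((2 ^ kb L) ^ L) ^ (2 * L + 1)) h2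
    omega

/-- the advice -/
noncomputable def advice (L : ℕ) : List (List ℕ) := wtab (exists_good L).choose

theorem advice_good (L : ℕ) : GoodTable L (advice L) := (exists_good L).choose_spec

/-- tables are short -/
theorem sz_wtab {L : ℕ} (ω : Fin (2 * L + 1) → Fin L → Fin (2 ^ kb L)) :
    sz (wtab ω) ≤ (2 * L + 1) * (L * (4 * (kb L + 1) + 2) + 2) + 1 := by
  have h1 : ∀ w ∈ wtab ω, sz w ≤ L * (4 * (kb L + 1) + 2) + 1 := by
    intro w hw
    obtain ⟨i, rfl⟩ := List.mem_ofFn.1 hw
    have h2 : ∀ a ∈ (List.ofFn fun j => 2 ^ kb L + (ω i j : ℕ)), sz a ≤ 4 * (kb L + 1) + 1 := by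
      intro a ha
      obtain ⟨j, rfl⟩ := List.mem_ofFn.1 ha
      apply sz_nat_of_lt
      have := (ω i j).2
      rw [pow_succ]
      omega
    have h3 := sz_le_length_mul _ _ h2
    rw [List.length_ofFn] at h3
    exact h3
  have h3 := sz_le_length_mul _ _ h1
  have h4 : (wtab ω).length = 2 * L + 1 := by unfold wtab; rw [List.length_ofFn]
  rw [h4] at h3
  exact h3

/-- the bound for the length of the advice, as a polynomial -/
noncomputable def advP : Polynomial ℕ :=
  (2 * Polynomial.X + 1) * (Polynomial.X * (4 * ((7 * Polynomial.X + 3) + 1) + 2) + 2) + 1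

theorem sz_advice (L : ℕ) : sz (advice L) ≤ advP.eval L := by
  have h := sz_wtab (exists_good L).choose
  unfold advP
  simp only [Polynomial.eval_add, Polynomial.eval_mul, Polynomial.eval_X, Polynomial.eval_one,
    Polynomial.eval_ofNat]
  exact h

end Pool.Agent.U124.LP

namespace Pool.Agent.NPC.U124LP

open Pool.Agent.N477.RS Pool.Agent.Y644.QS Pool.Agent.Y644.QW Pool.Agent.H687R2.LLL
  Pool.Agent.NPC.H532.RP Pool.Agent.NPC.Y644 Pool.Agent.N588.TD

/-- the algorithm with advice -/
def solveA (C : ℕ) (s : List Bool) : Option Outp :=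
  (unbits (List (List ℕ) × Inp) s).elim none fun q => runs q.2 (sz q.2 ^ C) q.1

theorem poly_solveA (C : ℕ) : PolyTime (fun s => bits (solveA C s)) := by
  refine polyTime_bits ?_
  unfold solveA
  have hs : UPoly (fun p : List Bool × (List (List ℕ) × Inp) => sz p.2.2) :=
    UPoly.sz (Poly.snd (Poly.snd Poly.id))
  have hT : UPoly (fun p : List Bool × (List (List ℕ) × Inp) => sz p.2.2 ^ C) :=
    UPoly_pow hs _
  have h1 : Poly (fun p : List Bool × (List (List ℕ) × Inp) =>
      runs p.2.2 (sz p.2.2 ^ C) p.2.1) :=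
    N477RS.poly_runs (by fun_prop) hT (by fun_prop)
  exact Poly.optElim (h := fun (_ : List Bool) (q : List (List ℕ) × Inp) =>
    runs q.2 (sz q.2 ^ C) q.1) poly_unbits (Poly.const _) h1

theorem solveA_bits (C : ℕ) (W : List (List ℕ)) (x : Inp) :
    solveA C (bits (W, x)) = runs x (sz x ^ C) W := by
  unfold solveA
  rw [unbits_bits, Option.elim_some]

end Pool.Agent.NPC.U124LP
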