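import Pool.Agent.N477.RS10
import Pool.Agent.N588.TD.Run

set_option autoImplicit false

/-!
# Random shadow paths on linear programs of bounded imbalance: real data
-/

namespace Pool.Agent.U124.LP

open Set Matrix
open Pool.Agent.N477.MD Pool.Agent.N477.RS Pool.Agent.N588.TD

variable {m n : ℕ}

/-- a basis of tight rows at a vertex -/
theorem basis_at {A : Fin m → Fin n → ℝ} {b : Fin m → ℝ} {v : Fin n → ℝ}
    (hv : v ∈ (Poly (arow A) (arhs b)).extremePoints ℝ) :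
    ∃ B : Fin n → Fin m ⊕ Fin n, LinearIndependent ℝ (fun k => arow A (B k)) ∧
      ∀ k, B k ∈ tight (arow A) (arhs b) v := by
  obtain ⟨B, hBT, -, hB⟩ := exists_basis (arow A) (T := tight (arow A) (arhs b) v)
    (fun x hx => ext_pointed hv hx)
  exact ⟨B, hB, hBT⟩

/-- `v` is optimal for the start objectives -/
theorem start_opt {A : Fin m → Fin n → ℝ} {b : Fin m → ℝ} {v : Fin n → ℝ}
    (hv : v ∈ Poly (arow A) (arhs b)) {B : Fin n → Fin m ⊕ Fin n}
    (hB : ∀ k, B k ∈ tight (arow A) (arhs b) v) {Q : ℕ} (g : Fin n → Fin Q) :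
    MaxAt (Poly (arow A) (arhs b)) (zz (arow A) B 0 (gpt Q g)) v :=
  maxAt_zz hv hB fun k => by
    rw [Pi.zero_apply, zero_add]
    unfold gpt
    positivity

open Classical in
/-- **At least half of the start objectives are good.** -/
theorem half_good {A : Fin m → Fin n → ℝ} {b : Fin m → ℝ} {κ : ℝ} (hκ : Bal (arow A) κ)
    {v : Fin n → ℝ} (hv : v ∈ (Poly (arow A) (arhs b)).extremePoints ℝ)
    {B : Fin n → Fin m ⊕ Fin n} (hB : LinearIndependent ℝ (fun k => arow A (B k)))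
    (hBt : ∀ k, B k ∈ tight (arow A) (arhs b) v) (c : Fin n → ℝ) {T Q : ℕ}
    (hT : 72 * (n : ℝ) ^ 4 * κ ^ 3 ≤ T) (hT1 : 1 ≤ T)
    (hQ : 4 * ((n + 1) * ((2 ^ (m + n + n)) ^ 2 + (2 ^ (m + n + n)) ^ 3)) ≤ Q) :
    2 * (Finset.univ.filter (fun g : Fin n → Fin Q => ∃ (N : ℕ) (x : ℕ → Fin n → ℝ), T ≤ N ∧
      x 0 = v ∧ ∀ k < N, SPiv (Poly (arow A) (arhs b)) c (zz (arow A) B 0 (gpt Q g))
        (x k) (x (k + 1)))).card ≤ Q ^ n := by
  refine le_trans (Nat.mul_le_mul_left _ (Finset.card_le_card ?_))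
    (grid_lp A b hκ hB ⟨v, hv.1⟩ c hT hT1 hQ)
  intro g hg
  rw [Finset.mem_filter] at hg ⊢
  obtain ⟨-, N, x, hN, h0, hx⟩ := hg
  refine ⟨Finset.mem_univ _, ?_⟩
  have := run_le hv (start_opt hv.1 hBt g) h0 hx
  omega

/-- **Short improving paths.** -/
theorem short_path {A : Fin m → Fin n → ℝ} {b : Fin m → ℝ} {κ : ℝ} (hκ : Bal (arow A) κ)
    {v : Fin n → ℝ} (hv : v ∈ (Poly (arow A) (arhs b)).extremePoints ℝ) (c : Fin n → ℝ) {T : ℕ}
    (hT : 72 * (n : ℝ) ^ 4 * κ ^ 3 ≤ T) (hT1 : 1 ≤ T) :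
    ∃ z, MaxAt (Poly (arow A) (arhs b)) z v ∧ ∃ (N : ℕ) (x : ℕ → Fin n → ℝ), N < T ∧ x 0 = v ∧
      (∀ k < N, SPiv (Poly (arow A) (arhs b)) c z (x k) (x (k + 1))) ∧
      (MaxAt (Poly (arow A) (arhs b)) c (x N) ∨
        ∃ d, SRay (Poly (arow A) (arhs b)) c z (x N) d) := by
  classical
  obtain ⟨B, hB, hBt⟩ := basis_at hv
  rcases Nat.eq_zero_or_pos n with hn | hn
  · subst hn
    refine ⟨0, ⟨hv.1, fun x _ => by simp⟩, 0, fun _ => v, by omega, rfl, fun k hk => by omega,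
      Or.inl ⟨hv.1, fun x _ => ?_⟩⟩
    simp [dotProduct]
  obtain ⟨S, hS0, hS⟩ := exists_hyp (arow A) (arhs b) c
  set V := 2 ^ (m + n + n) with hV
  set Q := 4 * ((n + 1) * (V ^ 2 + V ^ 3)) + 2 * (S.card * (n + 1)) + 1 with hQdef
  have hQ1 : 4 * ((n + 1) * (V ^ 2 + V ^ 3)) ≤ Q := by omega
  have hgrid := grid_lp A b hκ hB ⟨v, hv.1⟩ c hT hT1 hQ1
  set bad1 := Finset.univ.filter (fun g : Fin n → Fin Q =>
      T + 1 ≤ (Vis (Poly (arow A) (arhs b)) c (zz (arow A) B 0 (gpt Q g))).ncard) with hbad1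
  set bad2 : (Fin n → ℝ) → Finset (Fin n → Fin Q) := fun e =>
    Finset.univ.filter (fun g : Fin n → Fin Q => Cut Q (fun k => arow A (B k) ⬝ᵥ e) g) with hbad2
  have hb2 : ∀ e ∈ S, (bad2 e).card ≤ (n + 1) * Q ^ (n - 1) := by
    intro e he
    refine card_cut ?_
    by_contra hcon
    push Not at hcon
    exact hS0 e he (eq_zero_of_basis hB fun k => hcon k)
  have hQn : Q ^ n = Q * Q ^ (n - 1) := by
    rw [← pow_succ']
    congr 1
    omega
  have hQpos : 0 < Q ^ (n - 1) := Nat.pow_pos (by omega)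
  have hcard : (bad1 ∪ S.biUnion bad2).card < Fintype.card (Fin n → Fin Q) := by
    rw [Fintype.card_fun, Fintype.card_fin, Fintype.card_fin]
    have h1 : (bad1 ∪ S.biUnion bad2).card ≤ bad1.card + S.card * ((n + 1) * Q ^ (n - 1)) := by
      refine (Finset.card_union_le _ _).trans (Nat.add_le_add_left ?_ _)
      exact Finset.card_biUnion_le_card_mul _ _ _ hb2
    have h2 : 2 * (S.card * ((n + 1) * Q ^ (n - 1))) < Q ^ n := by
      rw [hQn]
      calc 2 * (S.card * ((n + 1) * Q ^ (n - 1))) = 2 * (S.card * (n + 1)) * Q ^ (n - 1) := by ring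
        _ < Q * Q ^ (n - 1) := Nat.mul_lt_mul_of_pos_right (by omega) hQpos
    have h3 : 2 * bad1.card ≤ Q ^ n := hgrid
    omega
  obtain ⟨g, hg⟩ : ∃ g, g ∉ bad1 ∪ S.biUnion bad2 := by
    by_contra hcon
    push Not at hcon
    have : (bad1 ∪ S.biUnion bad2) = Finset.univ := Finset.eq_univ_iff_forall.2 hcon
    rw [this, Finset.card_univ] at hcard
    exact lt_irrefl _ hcard
  rw [Finset.mem_union, not_or] at hg
  have hz := start_opt hv.1 hBt g
  refine ⟨_, hz, ?_⟩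
  have hgen : Gen1 (Poly (arow A) (arhs b)) c (zz (arow A) B 0 (gpt Q g)) := by
    refine hS _ fun e he h0 => hg.2 ?_
    rw [Finset.mem_biUnion]
    refine ⟨e, he, Finset.mem_filter.2 ⟨Finset.mem_univ _, gpt Q g, gpt_mem, ?_⟩⟩
    rw [zz0_dot] at h0
    exact h0
  obtain ⟨N, x, h0, hx, -, hend⟩ := exists_run hgen hv hz
  refine ⟨N, x, ?_, h0, hx, hend⟩
  have h1 := run_le hv hz h0 hx
  have h2 : ¬ T + 1 ≤ (Vis (Poly (arow A) (arhs b)) c (zz (arow A) B 0 (gpt Q g))).ncard := by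
    intro h
    exact hg.1 (Finset.mem_filter.2 ⟨Finset.mem_univ _, h⟩)
  omega

/-- integer matrices with bounded subdeterminants -/
theorem bal_int (A : Matrix (Fin m) (Fin n) ℤ) {Δ : ℤ}
    (hA : ∀ (k : ℕ) (f : Fin k → Fin m) (g : Fin k → Fin n), |(A.submatrix f g).det| ≤ Δ) :
    Bal (arow fun i j => (A i j : ℝ)) (Δ : ℝ) := by
  have h := bal_of_det A hA
  refine bal_of_signs h id (Sum.elim (fun _ => 1) (fun _ => -1)) ?_ ?_
  · rintro (i | j) <;> simp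
  · rintro (i | j)
    · show (fun j => (A i j : ℝ)) = (1 : ℝ) • ((1 : ℝ) • (A.map (fun z : ℤ => (z : ℝ))) i)
      rw [one_smul, one_smul]
      rfl
    · show -Pi.single j (1 : ℝ) = (-1 : ℝ) • (Pi.single j (1 : ℝ) : Fin n → ℝ)
      rw [neg_smul, one_smul]

end Pool.Agent.U124.LP
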